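import Pool.Agent.W259.GP.Main
import Pool.Agent.W259.GP.Fin2

/-! MP_08c4cb_co, Q2: an upper bound for the number `f(n)` of points of the unit cube with mutual
distances at least one: `log f(n) ≤ (n / 2) log n - (log π - o(1)) n`. -/

open Filter

namespace Pool.Agent.Results.MP_08c4cb_co.LogPi

/-- `f(n)`: the largest number of points of the cube `[0,1]^n` with mutual Euclidean distances at
least one. -/
noncomputable def f (n : ℕ) : ℕ :=
  sSup {k | ∃ X : Finset (EuclideanSpace ℝ (Fin n)), (∀ x ∈ X, ∀ i, 0 ≤ x i ∧ x i ≤ 1) ∧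
    (∀ x ∈ X, ∀ y ∈ X, x ≠ y → 1 ≤ dist x y) ∧ X.card = k}

theorem result :
    (∀ n : ℕ, 1 ≤ n → BddAbove {k | ∃ X : Finset (EuclideanSpace ℝ (Fin n)),
      (∀ x ∈ X, ∀ i, 0 ≤ x i ∧ x i ≤ 1) ∧
      (∀ x ∈ X, ∀ y ∈ X, x ≠ y → 1 ≤ dist x y) ∧ X.card = k}) ∧
    ∀ ε : ℝ, 0 < ε → ∀ᶠ n : ℕ in atTop,
      Real.log (f n) - (n : ℝ) / 2 * Real.log n ≤ -((Real.log Real.pi - ε) * n) := by
  refine ⟨fun n hn => SpherePacking.P_bdd hn zero_le_one, fun ε hε => ?_⟩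
  obtain ⟨n0, hn0⟩ := Pool.Agent.W259.GP.cube_bound' Pool.Agent.W259.GP.s_main ε hε
  filter_upwards [eventually_ge_atTop n0] with n hn
  have h := hn0 n hn
  have h2 : f n = SpherePacking.f n := rfl
  rw [h2]
  linarith

end Pool.Agent.Results.MP_08c4cb_co.LogPi
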